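import Pool.Agent.Lib.MP_72b724_gt.Interfaces

/-!
# MP_72b724_gt, module LOCLIN: near a regular zero a map is homotopic to a local homeomorphism
-/

open scoped ENNReal Topology
open MeasureTheory Set Filter Topology Pool.Agent.Lib.MP_904b2a_gt Pool.Agent.Lib.MP_89fcdb_gt

namespace Pool.Agent.Lib.MP_72b724_gt.H63

noncomputable section

/-- The radial homeomorphism from `ℝⁿ` onto a ball. -/
theorem exists_kappa (n : ℕ) (ρ : ℝ) (hρ : 0 < ρ) : ∃ κ : (Fin n → ℝ) → EE n,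
    IsOpenEmbedding κ ∧ κ 0 = 0 ∧ range κ ⊆ Metric.ball (0 : EE n) ρ := by
  let e := OpenPartialHomeomorph.univBall (0 : EE n) ρ
  have he : IsOpenEmbedding e :=
    e.isOpenEmbedding (OpenPartialHomeomorph.univBall_source (0 : EE n) ρ)
  let q : (Fin n → ℝ) ≃L[ℝ] EE n := (EuclideanSpace.equiv (Fin n) ℝ).symm
  refine ⟨fun v => e (q v), he.comp q.toHomeomorph.isOpenEmbedding, ?_, ?_⟩
  · change e (q 0) = 0
    rw [map_zero]
    exact OpenPartialHomeomorph.univBall_apply_zero (0 : EE n) ρ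
  · rintro _ ⟨v, rfl⟩
    have h1 : e (q v) ∈ e.target := e.map_source (by
      rw [OpenPartialHomeomorph.univBall_source (0 : EE n) ρ]; exact mem_univ _)
    rwa [OpenPartialHomeomorph.univBall_target (0 : EE n) hρ] at h1

theorem locLin : LocLinStatement := by
  intro n M _ _ vol F z hF hFz hreg U hU hz
  obtain ⟨ψ, W, hψ, hψ0, -, L, hL⟩ := hreg
  -- the constant
  obtain ⟨c, hc, hcL⟩ : ∃ c : ℝ, 0 < c ∧ ∀ v : EE n, c * ‖v‖ ≤ ‖L v‖ := by
    refine ⟨(‖(L.symm : (Fin n → ℝ) →L[ℝ] EE n)‖ + 1)⁻¹, by positivity, fun v => ?_⟩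
    rw [inv_mul_le_iff₀ (by positivity)]
    calc ‖v‖ = ‖(L.symm : (Fin n → ℝ) →L[ℝ] EE n) (L v)‖ := by simp
      _ ≤ ‖(L.symm : (Fin n → ℝ) →L[ℝ] EE n)‖ * ‖L v‖ :=
          (L.symm : (Fin n → ℝ) →L[ℝ] EE n).le_opNorm _
      _ ≤ (‖(L.symm : (Fin n → ℝ) →L[ℝ] EE n)‖ + 1) * ‖L v‖ :=
          mul_le_mul_of_nonneg_right (by linarith) (norm_nonneg _)
  -- the radius
  have h1 : ∀ᶠ v in 𝓝 (0 : EE n), ‖F (ψ v) - L v‖ ≤ c / 2 * ‖v‖ := by
    have h2 := (hasFDerivAt_iff_isLittleO.1 hL).def (half_pos hc)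
    filter_upwards [h2] with v hv
    have h3 : F (ψ 0) = 0 := by rw [hψ0, hFz]
    simpa [h3] using hv
  have h2 : ∀ᶠ v in 𝓝 (0 : EE n), v ∈ W := hψ.isOpen.mem_nhds hψ.zero_mem
  have h3 : ∀ᶠ v in 𝓝 (0 : EE n), ψ v ∈ U := by
    have h4 : ContinuousAt ψ 0 := hψ.cont.continuousAt (hψ.isOpen.mem_nhds hψ.zero_mem)
    exact h4.eventually (by rw [hψ0]; exact hU.mem_nhds hz)
  obtain ⟨ρ, hρ, hρb⟩ := Metric.eventually_nhds_iff_ball.1 (h1.and (h2.and h3))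
  obtain ⟨κ, hκ, hκ0, hκr⟩ := exists_kappa n ρ hρ
  have hκb : ∀ v, κ v ∈ Metric.ball (0 : EE n) ρ := fun v => hκr (mem_range_self v)
  refine ⟨fun v => ψ (κ v), fun v => L (κ v), ?_, ?_, ?_, ?_, ?_, ?_⟩
  · refine IsOpenEmbedding.of_continuous_injective_isOpenMap ?_ ?_ ?_
    · rw [continuous_iff_continuousAt]
      intro v
      have h5 : ContinuousAt ψ (κ v) :=
        hψ.cont.continuousAt (hψ.isOpen.mem_nhds (hρb _ (hκb v)).2.1)
      exact ContinuousAt.comp (f := κ) h5 hκ.continuous.continuousAt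
    · intro v w hvw
      exact hκ.injective (hψ.injOn (hρb _ (hκb v)).2.1 (hρb _ (hκb w)).2.1 hvw)
    · intro V hV
      have h6 := hψ.isOpenMap (κ '' V) (by
        rintro _ ⟨v, -, rfl⟩
        exact (hρb _ (hκb v)).2.1) (hκ.isOpenMap V hV)
      rwa [image_image] at h6
  · exact L.toHomeomorph.isOpenEmbedding.comp hκ
  · change ψ (κ 0) = z
    rw [hκ0, hψ0]
  · change L (κ 0) = 0
    rw [hκ0, map_zero]
  · rintro _ ⟨v, rfl⟩
    exact (hρb _ (hκb v)).2.2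
  · intro v hv s hs h0
    have hne : κ v ≠ 0 := fun h => hv (hκ.injective (by rw [h, hκ0]))
    have hpos : 0 < ‖κ v‖ := norm_pos_iff.2 hne
    have h7 : ‖F (ψ (κ v)) - L (κ v)‖ ≤ c / 2 * ‖κ v‖ := (hρb _ (hκb v)).1
    have h8 : L (κ v) = -((1 - s) • (F (ψ (κ v)) - L (κ v))) := by
      have h9 : (1 - s) • F (ψ (κ v)) + s • L (κ v) = 0 := h0
      have h10 : (1 - s) • (F (ψ (κ v)) - L (κ v)) + L (κ v) =
          (1 - s) • F (ψ (κ v)) + s • L (κ v) := by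
        rw [smul_sub, sub_smul 1 s (L (κ v)), one_smul]
        abel
      rw [h9] at h10
      exact eq_neg_of_add_eq_zero_right h10
    have h11 : ‖L (κ v)‖ ≤ ‖F (ψ (κ v)) - L (κ v)‖ := by
      rw [h8, norm_neg, norm_smul]
      have h12 : ‖(1 - s : ℝ)‖ ≤ 1 := by
        rw [Real.norm_eq_abs, abs_le]
        constructor <;> linarith [hs.1, hs.2]
      have h13 := norm_nonneg (F (ψ (κ v)) - L (κ v))
      rw [← h8]
      nlinarith
    have h14 := hcL (κ v)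
    nlinarith

end

end Pool.Agent.Lib.MP_72b724_gt.H63
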