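import Pool.Agent.Lib.MP_72b724_gt.Interfaces

/-!
# MP_72b724_gt, module LSC: small loops in a compact manifold are null-homotopic
-/

open scoped Manifold ContDiff ENNReal Topology
open MeasureTheory Set Filter Topology Pool.Agent.Lib.MP_904b2a_gt Pool.Agent.Lib.MP_89fcdb_gt

namespace Pool.Agent.Lib.MP_72b724_gt.H63

noncomputable section

/-- A loop in a chart ball is null-homotopic. -/
theorem nullHomotopic_of_chart {n : ℕ} {M : Type} [TopologicalSpace M]
    (φ : OpenPartialHomeomorph M (EE n)) (c : EE n) (δ : ℝ)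
    (hb : Metric.ball c δ ⊆ φ.target) (x : M) (γ : Path x x)
    (hγ : ∀ t, γ t ∈ φ.source ∧ φ (γ t) ∈ Metric.ball c δ) :
    Path.Homotopic γ (Path.refl x) := by
  have hx : x ∈ φ.source ∧ φ x ∈ Metric.ball c δ := by
    have := hγ 0
    rwa [γ.source] at this
  -- the straight line homotopy in the chart
  have hmem : ∀ p : unitInterval × unitInterval,
      (1 - (p.1 : ℝ)) • φ (γ p.2) + (p.1 : ℝ) • φ x ∈ Metric.ball c δ := fun p =>
    (convex_ball c δ) (hγ p.2).2 hx.2 (sub_nonneg.2 p.1.2.2) p.1.2.1 (by ring)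
  have hφγ : Continuous fun t : unitInterval => φ (γ t) := by
    rw [continuous_iff_continuousAt]
    intro t
    exact (φ.continuousAt (hγ t).1).comp γ.continuous.continuousAt
  have hlin : Continuous fun p : unitInterval × unitInterval =>
      (1 - (p.1 : ℝ)) • φ (γ p.2) + (p.1 : ℝ) • φ x := by
    have h1 : Continuous fun p : unitInterval × unitInterval => φ (γ p.2) :=
      hφγ.comp continuous_snd
    have h2 : Continuous fun p : unitInterval × unitInterval => (p.1 : ℝ) :=
      continuous_subtype_val.comp continuous_fst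
    exact ((continuous_const.sub h2).smul h1).add (h2.smul continuous_const)
  have hH : Continuous fun p : unitInterval × unitInterval =>
      φ.symm ((1 - (p.1 : ℝ)) • φ (γ p.2) + (p.1 : ℝ) • φ x) := by
    rw [continuous_iff_continuousAt]
    intro p
    have h3 : ContinuousAt φ.symm ((1 - (p.1 : ℝ)) • φ (γ p.2) + (p.1 : ℝ) • φ x) :=
      φ.continuousAt_symm (hb (hmem p))
    exact ContinuousAt.comp (f := fun p : unitInterval × unitInterval =>
      (1 - (p.1 : ℝ)) • φ (γ p.2) + (p.1 : ℝ) • φ x) h3 hlin.continuousAt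
  refine ⟨{ toFun := fun p => φ.symm ((1 - (p.1 : ℝ)) • φ (γ p.2) + (p.1 : ℝ) • φ x)
            continuous_toFun := hH
            map_zero_left := ?_
            map_one_left := ?_
            prop' := ?_ }⟩
  · intro t
    change φ.symm ((1 - (0 : ℝ)) • φ (γ t) + (0 : ℝ) • φ x) = γ t
    rw [sub_zero, one_smul, zero_smul, add_zero]
    exact φ.left_inv (hγ t).1
  · intro t
    change φ.symm ((1 - (1 : ℝ)) • φ (γ t) + (1 : ℝ) • φ x) = x
    rw [sub_self, one_smul, zero_smul, zero_add]
    exact φ.left_inv hx.1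
  · intro s t ht
    have h4 : γ t = x := by
      rcases ht with h | h
      · rw [h]; exact γ.source
      · rw [h]; exact γ.target
    change φ.symm ((1 - (s : ℝ)) • φ (γ t) + (s : ℝ) • φ x) = γ t
    rw [h4, ← add_smul, sub_add_cancel, one_smul]
    exact φ.left_inv hx.1

theorem lsc : LscStatement := by
  intro n M _ _ _
  -- chart balls
  have hch : ∀ x : M, ∃ δ : ℝ, 0 < δ ∧
      Metric.ball (chartAt (EE n) x x) δ ⊆ (chartAt (EE n) x).target := by
    intro x
    have := Metric.isOpen_iff.1 (chartAt (EE n) x).open_target _ (mem_chart_target (EE n) x)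
    obtain ⟨δ, hδ, h⟩ := this
    exact ⟨δ, hδ, h⟩
  choose δ hδ hball using hch
  let U : M → Set M := fun x => (chartAt (EE n) x).source ∩
    (chartAt (EE n) x) ⁻¹' Metric.ball (chartAt (EE n) x x) (δ x)
  have hU : ∀ x, IsOpen (U x) := fun x =>
    (chartAt (EE n) x).isOpen_inter_preimage Metric.isOpen_ball
  have hcov : (univ : Set M) ⊆ ⋃ x, U x := fun x _ =>
    mem_iUnion.2 ⟨x, mem_chart_source (EE n) x, Metric.mem_ball_self (hδ x)⟩
  obtain ⟨ε, hε, h⟩ := lebesgue_number_lemma_of_metric isCompact_univ hU hcov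
  refine ⟨ε, hε, fun x γ hγ => ?_⟩
  obtain ⟨y, hy⟩ := h x (mem_univ x)
  exact nullHomotopic_of_chart (chartAt (EE n) y) (chartAt (EE n) y y) (δ y) (hball y) x γ
    fun t => hy (Metric.mem_ball.2 (hγ t))

end

end Pool.Agent.Lib.MP_72b724_gt.H63
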